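import Pool.Agent.R512.L.Rough

/-!
Library R512.L (helper512): the sieve model of the von Mangoldt function and products of the Liouville
function: the uniform bound.
-/

set_option autoImplicit false

namespace Pool.Agent.R512.L

open Finset Filter Topology
open Pool.Agent.Y958.U
open Pool.Agent.Y958.TC (NM ind Av ind_nonneg)
open Pool.Agent.TH823.MRS (ExpoSmall FlipAll lam_bdd lam_flip expo_lam)
open Pool.Agent.H376R2.MR (lam)

/-- from almost all scales to logarithmic averages, relative to a density -/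
lemma log_scales_v (F : ℕ → ℝ) (hF : ∀ n, |F n| ≤ 1) (c v : ℝ) (hc : 0 < c) (hc1 : c < 1) (hv : 0 < v) (hv1 : v ≤ 1)
    (E : Set ℕ) (hE : LZ E)
    (N₀ : ℕ) (h : ∀ N : ℕ, N₀ ≤ N → N ∉ E → |∑ n ∈ Icc 1 N, F n| ≤ (1 - c) * v * N) :
    ∃ X₀ : ℕ, ∀ X : ℕ, X₀ ≤ X → |∑ n ∈ Icc 1 X, F n / n| ≤ (1 - c / 2) * v * Real.log X := by
  classical
  have hE1 : LZ (E ∪ {n | n < N₀}) := LZ_union hE (LZ_bdd _ N₀ fun n hn => hn)
  obtain ⟨X₁, hX₁⟩ := (LZ_iff _).1 hE1 (c * v / 4) (by positivity)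
  have hlog : Tendsto (fun X : ℕ => Real.log X) atTop atTop :=
    Real.tendsto_log_atTop.comp tendsto_natCast_atTop_atTop
  obtain ⟨X₂, hX₂⟩ := eventually_atTop.1 (hlog.eventually_ge_atTop (8 / (c * v)))
  refine ⟨X₁ + X₂ + 2, fun X hX => ?_⟩
  have h1 := hX₁ X (by omega)
  have h2 := hX₂ X (by omega)
  have hS : ∀ N : ℕ, |∑ n ∈ Icc 1 N, F n| ≤ N := by
    intro N
    refine (abs_sum_le_sum_abs _ _).trans ((sum_le_sum fun k _ => hF _).trans (le_of_eq ?_))
    simp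
  rw [abel_log]
  have h3 : |(∑ n ∈ Icc 1 X, F n) / ((X : ℝ) + 1)| ≤ 1 := by
    rw [abs_div, abs_of_pos (by positivity : (0 : ℝ) < (X : ℝ) + 1), div_le_one (by positivity)]
    have := hS X
    linarith
  have hcv : 0 ≤ (1 - c) * v := mul_nonneg (by linarith) hv.le
  have h4 : |∑ N ∈ Icc 1 X, (∑ n ∈ Icc 1 N, F n) * (1 / ((N : ℝ) * (N + 1)))| ≤
      (1 - c) * v * (1 + Real.log X) + ls (E ∪ {n | n < N₀}) X := by
    refine (abs_sum_le_sum_abs _ _).trans ?_
    have h5 : ∀ N ∈ Icc 1 X, |(∑ n ∈ Icc 1 N, F n) * (1 / ((N : ℝ) * (N + 1)))| ≤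
        (1 - c) * v * (1 / (N : ℝ)) + li (E ∪ {n | n < N₀}) N := by
      intro N hN
      rw [mem_Icc] at hN
      have hN0 : (0 : ℝ) < N := by exact_mod_cast (by omega : 0 < N)
      have e1 : (0 : ℝ) < 1 / ((N : ℝ) * (N + 1)) := by positivity
      rw [abs_mul, abs_of_pos e1]
      have e2 : (N : ℝ) * (1 / ((N : ℝ) * (N + 1))) ≤ 1 / N := by
        rw [mul_one_div, div_le_div_iff₀ (by positivity) hN0]
        nlinarith
      by_cases hNE : N ∈ E ∪ {n | n < N₀}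
      · rw [li_mem hNE]
        have : |∑ n ∈ Icc 1 N, F n| * (1 / ((N : ℝ) * (N + 1))) ≤ N * (1 / ((N : ℝ) * (N + 1))) :=
          mul_le_mul_of_nonneg_right (hS N) e1.le
        have h6 : 0 ≤ (1 - c) * v * (1 / (N : ℝ)) := mul_nonneg hcv (by positivity)
        linarith
      · rw [li_not hNE, add_zero]
        have h6 : N ∉ E := fun hh => hNE (Or.inl hh)
        have h7 : N₀ ≤ N := by
          by_contra hcc
          exact hNE (Or.inr (not_le.1 hcc))
        calc |∑ n ∈ Icc 1 N, F n| * (1 / ((N : ℝ) * (N + 1))) ≤ (1 - c) * v * N * (1 / ((N : ℝ) * (N + 1))) :=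
              mul_le_mul_of_nonneg_right (h N h7 h6) e1.le
          _ = (1 - c) * v * (N * (1 / ((N : ℝ) * (N + 1)))) := by ring
          _ ≤ (1 - c) * v * (1 / N) := mul_le_mul_of_nonneg_left e2 hcv
    refine (sum_le_sum h5).trans ?_
    rw [sum_add_distrib, ← mul_sum, ls_eq]
    apply add_le_add _ le_rfl
    apply mul_le_mul_of_nonneg_left _ hcv
    have h8 := harmonic_le_one_add_log X
    have h9 : ∑ i ∈ Icc 1 X, (1 : ℝ) / i = ((harmonic X : ℚ) : ℝ) := by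
      rw [harmonic_eq_sum_Icc]
      push_cast
      apply sum_congr rfl
      intro i _
      rw [one_div]
    rw [h9]
    exact h8
  have h10 := abs_add_le (∑ N ∈ Icc 1 X, (∑ n ∈ Icc 1 N, F n) * (1 / ((N : ℝ) * (N + 1))))
    ((∑ n ∈ Icc 1 X, F n) / ((X : ℝ) + 1))
  rw [div_le_iff₀ (by positivity)] at h2
  have h11 : (1 - c) * v ≤ 1 := by nlinarith
  have e3 : (1 - c / 2) * v * Real.log X = (1 - c) * v * Real.log X + c * v / 4 * Real.log X +
      Real.log X * (c * v) / 4 := by ring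
  rw [e3]
  have e4 : (1 - c) * v * (1 + Real.log X) = (1 - c) * v + (1 - c) * v * Real.log X := by ring
  rw [e4] at h4
  linarith

/-- the primes up to `z` -/
def pr (z : ℕ) : Finset ℕ := (Icc 1 z).filter Nat.Prime

lemma pr_prime {z p : ℕ} (hp : p ∈ pr z) : p.Prime := (mem_filter.1 hp).2

/-- the product of the primes up to `z` -/
def PP (z : ℕ) : ℕ := ∏ p ∈ pr z, p

lemma PP_pos (z : ℕ) : 1 ≤ PP z := prod_pos fun _ hp => (pr_prime hp).pos

/-- the constant -/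
noncomputable def C0 (z : ℕ) : ℝ := ∏ p ∈ pr z, (1 - 1 / (p : ℝ))⁻¹

lemma fac_pos {p : ℕ} (hp : p.Prime) : 0 < 1 - 1 / (p : ℝ) := by
  have h1 : (1 : ℝ) < p := by exact_mod_cast hp.one_lt
  have h2 : 1 / (p : ℝ) < 1 := by rw [div_lt_one (by linarith)]; exact h1
  linarith

lemma C0_pos (z : ℕ) : 0 < C0 z := prod_pos fun _ hp => inv_pos.2 (fac_pos (pr_prime hp))

open Classical in
/-- the sieve model of the von Mangoldt function -/
noncomputable def rough (z n : ℕ) : ℝ := if ∀ p ∈ pr z, ¬ p ∣ n then C0 z else 0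

/-- the partial product of the singular series -/
noncomputable def sing {k : ℕ} (z : ℕ) (h : Fin k → ℕ) : ℝ :=
  ∏ p ∈ pr z, (1 - (nu h p : ℝ) / p) / (1 - 1 / (p : ℝ)) ^ k

lemma rough_prod {k : ℕ} (z : ℕ) (h : Fin k → ℕ) (n : ℕ) :
    ∏ i, rough z (n + h i) = C0 z ^ k * ind (VS h (pr z)) n := by
  classical
  unfold Pool.Agent.Y958.TC.ind
  by_cases hV : VS h (pr z) n
  · rw [if_pos hV, mul_one]
    have h1 : ∀ i ∈ (univ : Finset (Fin k)), rough z (n + h i) = C0 z := by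
      intro i _
      unfold rough
      rw [if_pos]
      intro p hp
      exact hV p hp i
    rw [prod_congr rfl h1, prod_const, card_univ, Fintype.card_fin]
  · rw [if_neg hV, mul_zero]
    unfold VS at hV
    push Not at hV
    obtain ⟨p, hp, i, hi⟩ := hV
    apply prod_eq_zero (mem_univ i)
    unfold rough
    rw [if_neg]
    push Not
    exact ⟨p, hp, hi⟩

lemma sing_eq {k : ℕ} (z : ℕ) (h : Fin k → ℕ) : C0 z ^ k * dv (VS h (pr z)) (PP z) = sing z h := by
  classical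
  have h1 : (cd (VS h (pr z)) (PP z) : ℝ) = ∏ p ∈ pr z, ((p : ℝ) - nu h p) := by
    unfold PP
    rw [cd_VS h (pr z) (fun p hp => pr_prime hp)]
    push_cast
    apply prod_congr rfl
    intro p hp
    rw [Nat.cast_sub (nu_le h p (pr_prime hp).pos)]
  have h2 : dv (VS h (pr z)) (PP z) = (cd (VS h (pr z)) (PP z) : ℝ) / (PP z : ℝ) := rfl
  rw [h2, h1]
  unfold sing C0 PP
  push_cast
  rw [← prod_pow, ← prod_div_distrib, ← prod_mul_distrib]
  apply prod_congr rfl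
  intro p hp
  have h3 := fac_pos (pr_prime hp)
  have h4 : (0 : ℝ) < p := by exact_mod_cast (pr_prime hp).pos
  rw [inv_pow, sub_div, div_self h4.ne', div_eq_mul_inv, mul_comm]
  rfl

/-- the sums without the Liouville function -/
lemma rough_mean {k : ℕ} (z : ℕ) (h : Fin k → ℕ) (N : ℕ) :
    |∑ n ∈ Icc 1 N, ∏ i, rough z (n + h i) - sing z h * N| ≤ C0 z ^ k * (2 * PP z) := by
  have h1 : ∑ n ∈ Icc 1 N, ∏ i, rough z (n + h i) - sing z h * N =
      C0 z ^ k * (∑ n ∈ Icc 1 N, ind (VS h (pr z)) n - dv (VS h (pr z)) (PP z) * N) := by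
    rw [← sing_eq, mul_sub, mul_sum, mul_assoc]
    congr 1
    exact sum_congr rfl fun n _ => rough_prod z h n
  have hC : 0 < C0 z ^ k := pow_pos (C0_pos z) k
  rw [h1, abs_mul, abs_of_pos hC]
  exact mul_le_mul_of_nonneg_left (ind_sum (PP_pos z) (VS_per h (pr z)) N) hC.le

/-- the product of the Liouville function -/
noncomputable def LL {l : ℕ} (h : Fin l → ℕ) (n : ℕ) : ℝ := ∏ j, (-1 : ℝ) ^ ArithmeticFunction.cardFactors (n + h j)

lemma LL_le {l : ℕ} (h : Fin l → ℕ) (n : ℕ) : |LL h n| ≤ 1 := by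
  unfold LL
  rw [abs_prod]
  apply le_of_eq
  apply prod_eq_one
  intro i _
  rw [abs_pow, abs_neg, abs_one, one_pow]

/-- one tuple: the exceptional scales have logarithmic density zero -/
lemma rough_one (l : ℕ) : ∃ c : ℝ, 0 < c ∧ c < 1 ∧ ∀ (V : ℕ → Prop) (A : ℕ), 1 ≤ A → (∀ n, V (n + A) ↔ V n) →
    ∀ h' : Fin l → ℕ, 1 ≤ l → Function.Injective h' →
      LZ {N | (1 - c) * dv V A * N < |∑ n ∈ Icc 1 N, ind V n * LL h' n|} := by
  classical
  obtain ⟨c, hc0, hc1, hU⟩ := unif l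
  refine ⟨c / 2, by positivity, by linarith, fun V A hA hV h' hl hinj => ?_⟩
  have hb : ∀ n, |ind V n * LL h' n| ≤ 1 := by
    intro n
    rw [abs_mul]
    have h1 : |ind V n| ≤ 1 := by
      unfold Pool.Agent.Y958.TC.ind
      split_ifs <;> simp
    have h2 := LL_le h' n
    calc |ind V n| * |LL h' n| ≤ 1 * 1 := mul_le_mul h1 h2 (abs_nonneg _) zero_le_one
      _ = 1 := one_mul 1
  by_cases hv : 0 < dv V A
  · have h1 := hU lam lam_bdd lam_flip expo_lam V A hA hV hv h' (fun _ => 1) hinj (fun _ => Or.inl rfl) ⟨⟨0, by omega⟩, rfl⟩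
    set E : Set ℕ := {N | (1 - c) * dv V A < |Av N (fun n => ind V n * ∏ i, ((lam (n + h' i) : ℤ) : ℝ) ^ 1)|} with hE
    have h2 := LZ_union (LZ_pull E 1 le_rfl h1) (LZ_bdd {N | N < ⌈8 / (c * dv V A)⌉₊} _ fun n hn => hn)
    refine LZ_sub ?_ h2
    intro N hN
    by_cases hNK : N < ⌈8 / (c * dv V A)⌉₊
    · exact Or.inr hNK
    left
    rw [Set.mem_setOf_eq] at hN ⊢
    rw [one_mul, hE, Set.mem_setOf_eq]
    have hNr : 8 / (c * dv V A) ≤ N := (Nat.le_ceil _).trans (Nat.cast_le.2 (not_lt.1 hNK))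
    have hcv : 0 < c * dv V A := by positivity
    rw [div_le_iff₀ hcv] at hNr
    have h3 : Av (N + 1) (fun n => ind V n * ∏ i, ((lam (n + h' i) : ℤ) : ℝ) ^ 1) =
        (∑ n ∈ Icc 1 N, ind V n * LL h' n + ind V 0 * LL h' 0) / ((N : ℝ) + 1) := by
      unfold Pool.Agent.Y958.TC.Av
      push_cast
      congr 1
      rw [sum_range_succ', ← sum_range_Icc]
      unfold LL
      simp only [pow_one, lam_real]
    have h4 : |∑ n ∈ Icc 1 N, ind V n * LL h' n| - 1 ≤
        |∑ n ∈ Icc 1 N, ind V n * LL h' n + ind V 0 * LL h' 0| := by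
      have h5 := abs_sub_abs_le_abs_sub (∑ n ∈ Icc 1 N, ind V n * LL h' n) (-(ind V 0 * LL h' 0))
      rw [abs_neg, sub_neg_eq_add] at h5
      have := hb 0
      linarith
    rw [h3, abs_div, abs_of_pos (by positivity : (0 : ℝ) < (N : ℝ) + 1), lt_div_iff₀ (by positivity)]
    have hdv1 : dv V A ≤ 1 := by
      unfold dv
      rw [div_le_one (by exact_mod_cast (by omega : 0 < A))]
      exact_mod_cast (card_filter_le _ _).trans (by rw [card_range])
    have e1 : (1 - c) * dv V A * ((N : ℝ) + 1) = (1 - c / 2) * dv V A * N - N * (c * dv V A) / 2 + (1 - c) * dv V A := by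
      ring
    rw [e1]
    have h6 : (1 - c) * dv V A ≤ 1 := by
      have h7 : (1 - c) * dv V A ≤ 1 * 1 := mul_le_mul (by linarith) hdv1 hv.le zero_le_one
      linarith
    linarith
  · -- the empty set
    have hv0 : dv V A = 0 := le_antisymm (not_lt.1 hv) (by unfold dv; positivity)
    have hcard : ((range A).filter V).card = 0 := by
      unfold dv at hv0
      rw [div_eq_zero_iff] at hv0
      rcases hv0 with h | h
      · exact_mod_cast h
      · exfalso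
        have : (A : ℝ) ≠ 0 := by exact_mod_cast (by omega : A ≠ 0)
        exact this h
    rw [card_eq_zero] at hcard
    have hVn : ∀ n, ¬ V n := by
      intro n hn
      have h1 : V (n % A) := (V_congr hV (Nat.mod_modEq n A).symm).1 hn
      have h2 : n % A ∈ (range A).filter V := mem_filter.2 ⟨mem_range.2 (Nat.mod_lt _ (by omega)), h1⟩
      rw [hcard] at h2
      exact absurd h2 (notMem_empty _)
    refine LZ_sub ?_ LZ_empty
    intro N hN
    rw [Set.mem_setOf_eq, hv0] at hN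
    have h3 : ∑ n ∈ Icc 1 N, ind V n * LL h' n = 0 := by
      apply sum_eq_zero
      intro n _
      unfold Pool.Agent.Y958.TC.ind
      rw [if_neg (hVn n), zero_mul]
    rw [h3] at hN
    simp at hN

/-- **the uniform bound for the sieve model** -/
theorem rough_final : ∃ (c : ℕ → ℝ) (E : Set ℕ) (Z : ℕ → ℕ), (∀ l, 0 < c l) ∧ LZ E ∧ Tendsto Z atTop atTop ∧
    ∀ (k l : ℕ) (h : Fin k → ℕ) (h' : Fin l → ℕ),
      (∃ N₀ : ℕ, ∀ N : ℕ, N₀ ≤ N → ∀ z : ℕ, z ≤ Z N →
        |∑ n ∈ Icc 1 N, ∏ i, rough z (n + h i) - sing z h * N| ≤ N / ((z : ℝ) + 1)) ∧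
      (1 ≤ l → Function.Injective h' →
        (∃ N₀ : ℕ, ∀ N : ℕ, N₀ ≤ N → N ∉ E → ∀ z : ℕ, z ≤ Z N →
          |∑ n ∈ Icc 1 N, (∏ i, rough z (n + h i)) * LL h' n| ≤ (1 - c l) * sing z h * N) ∧
        ∃ N₀ : ℕ, ∀ N : ℕ, N₀ ≤ N → ∀ z : ℕ, z ≤ Z N →
          |∑ n ∈ Icc 1 N, (∏ i, rough z (n + h i)) * LL h' n / n| ≤ (1 - c l) * sing z h * Real.log N) := by
  classical
  choose c hc0 hc1 hc using rough_one
  set ι := (Σ k : ℕ, (Fin k → ℕ)) × (Σ l : ℕ, (Fin l → ℕ)) with hι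
  set E : ℕ × ι → Set ℕ := fun t =>
    {N | (1 ≤ t.2.2.1 ∧ Function.Injective t.2.2.2) ∧ (1 - c t.2.2.1) * dv (VS t.2.1.2 (pr t.1)) (PP t.1) * N <
      |∑ n ∈ Icc 1 N, ind (VS t.2.1.2 (pr t.1)) n * LL t.2.2.2 n|} with hE
  have hEZ : ∀ t, LZ (E t) := by
    intro t
    by_cases ht : 1 ≤ t.2.2.1 ∧ Function.Injective t.2.2.2
    · refine LZ_sub ?_ (hc t.2.2.1 (VS t.2.1.2 (pr t.1)) (PP t.1) (PP_pos _) (VS_per _ _) t.2.2.2 ht.1 ht.2)
      rintro N ⟨-, hN⟩
      exact hN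
    · refine LZ_sub ?_ LZ_empty
      rintro N ⟨h, -⟩
      exact absurd h ht
  haveI : Nonempty ι := ⟨(⟨0, Fin.elim0⟩, ⟨0, Fin.elim0⟩)⟩
  obtain ⟨F, hF, hdiag⟩ := diag' E hEZ
  -- thresholds
  have hthr : ∀ (z : ℕ) (τ : ι), ∃ N₀ : ℕ, ∀ N : ℕ, N₀ ≤ N →
      |∑ n ∈ Icc 1 N, ∏ i, rough z (n + τ.1.2 i) - sing z τ.1.2 * N| ≤ N / ((z : ℝ) + 1) ∧
      (1 ≤ τ.2.1 → Function.Injective τ.2.2 →
        (N ∉ F → |∑ n ∈ Icc 1 N, (∏ i, rough z (n + τ.1.2 i)) * LL τ.2.2 n| ≤ (1 - c τ.2.1 / 2) * sing z τ.1.2 * N) ∧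
        |∑ n ∈ Icc 1 N, (∏ i, rough z (n + τ.1.2 i)) * LL τ.2.2 n / n| ≤
          (1 - c τ.2.1 / 2) * sing z τ.1.2 * Real.log N) := by
    intro z τ
    have hC : 0 < C0 z ^ τ.1.1 := pow_pos (C0_pos z) _
    obtain ⟨N₁, hN₁⟩ := hdiag (z, τ)
    set V := VS τ.1.2 (pr z) with hV
    set v := dv V (PP z) with hv
    have hv0 : 0 ≤ v := by rw [hv]; unfold dv; positivity
    have hv1 : v ≤ 1 := by
      rw [hv]
      unfold dv
      rw [div_le_one (by exact_mod_cast PP_pos z)]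
      exact_mod_cast (card_filter_le _ _).trans (by rw [card_range])
    have hsing : sing z τ.1.2 = C0 z ^ τ.1.1 * v := (sing_eq z τ.1.2).symm
    have hsc : ∀ N, N₁ ≤ N → N ∉ F → 1 ≤ τ.2.1 → Function.Injective τ.2.2 →
        |∑ n ∈ Icc 1 N, ind V n * LL τ.2.2 n| ≤ (1 - c τ.2.1) * v * N := by
      intro N hN hNF hl hinj
      by_contra hcon
      apply hNF
      exact hN₁ N ⟨⟨hl, hinj⟩, not_le.1 hcon⟩ hN
    have hb : ∀ n, |ind V n * LL τ.2.2 n| ≤ 1 := by
      intro n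
      rw [abs_mul]
      have h1 : |ind V n| ≤ 1 := by
        unfold Pool.Agent.Y958.TC.ind
        split_ifs <;> simp
      have h2 := LL_le τ.2.2 n
      calc |ind V n| * |LL τ.2.2 n| ≤ 1 * 1 := mul_le_mul h1 h2 (abs_nonneg _) zero_le_one
        _ = 1 := one_mul 1
    have hlogth : ∃ N₂ : ℕ, ∀ N : ℕ, N₂ ≤ N → 1 ≤ τ.2.1 → Function.Injective τ.2.2 →
        |∑ n ∈ Icc 1 N, ind V n * LL τ.2.2 n / n| ≤ (1 - c τ.2.1 / 2) * v * Real.log N := by
      by_cases hl : 1 ≤ τ.2.1 ∧ Function.Injective τ.2.2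
      · by_cases hvp : 0 < v
        · obtain ⟨X₀, hX₀⟩ := log_scales_v (fun n => ind V n * LL τ.2.2 n) hb (c τ.2.1) v (hc0 _) (hc1 _) hvp hv1 F hF N₁
            (fun N hN hNF => hsc N hN hNF hl.1 hl.2)
          exact ⟨X₀, fun X hX _ _ => hX₀ X hX⟩
        · have hv00 : v = 0 := le_antisymm (not_lt.1 hvp) hv0
          refine ⟨0, fun N _ _ _ => ?_⟩
          have hcard : ((range (PP z)).filter V).card = 0 := by
            rw [hv] at hv00
            unfold dv at hv00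
            rw [div_eq_zero_iff] at hv00
            rcases hv00 with h | h
            · exact_mod_cast h
            · exfalso
              have h1 := PP_pos z
              have : (PP z : ℝ) ≠ 0 := by exact_mod_cast (by omega : PP z ≠ 0)
              exact this h
          rw [card_eq_zero] at hcard
          have hVn : ∀ n, ¬ V n := by
            intro n hn
            have h1 : V (n % PP z) := (V_congr (VS_per τ.1.2 (pr z)) (Nat.mod_modEq n (PP z)).symm).1 hn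
            have h2 : n % PP z ∈ (range (PP z)).filter V :=
              mem_filter.2 ⟨mem_range.2 (Nat.mod_lt _ (PP_pos z)), h1⟩
            rw [hcard] at h2
            exact absurd h2 (notMem_empty _)
          have h3 : ∑ n ∈ Icc 1 N, ind V n * LL τ.2.2 n / n = 0 := by
            apply sum_eq_zero
            intro n _
            unfold Pool.Agent.Y958.TC.ind
            rw [if_neg (hVn n), zero_mul, zero_div]
          rw [h3, hv00]
          simp
      · exact ⟨0, fun N _ h1 h2 => absurd ⟨h1, h2⟩ hl⟩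
    obtain ⟨N₂, hN₂⟩ := hlogth
    set N₃ : ℕ := ⌈C0 z ^ τ.1.1 * (2 * PP z) * ((z : ℝ) + 1)⌉₊ with hN₃
    refine ⟨N₁ + N₂ + N₃, fun N hN => ⟨?_, fun hl hinj => ⟨fun hNF => ?_, ?_⟩⟩⟩
    · refine (rough_mean z τ.1.2 N).trans ?_
      rw [le_div_iff₀ (by positivity)]
      have h1 : C0 z ^ τ.1.1 * (2 * PP z) * ((z : ℝ) + 1) ≤ N₃ := Nat.le_ceil _
      have h2 : (N₃ : ℝ) ≤ N := by exact_mod_cast (by omega : N₃ ≤ N)
      linarith
    · have h1 := hsc N (by omega) hNF hl hinj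
      have h2 : ∑ n ∈ Icc 1 N, (∏ i, rough z (n + τ.1.2 i)) * LL τ.2.2 n =
          C0 z ^ τ.1.1 * ∑ n ∈ Icc 1 N, ind V n * LL τ.2.2 n := by
        rw [mul_sum]
        apply sum_congr rfl
        intro n _
        rw [rough_prod, mul_assoc]
      rw [h2, abs_mul, abs_of_pos hC, hsing]
      have h3 : C0 z ^ τ.1.1 * |∑ n ∈ Icc 1 N, ind V n * LL τ.2.2 n| ≤ C0 z ^ τ.1.1 * ((1 - c τ.2.1) * v * N) :=
        mul_le_mul_of_nonneg_left h1 hC.le
      refine h3.trans ?_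
      have h4 : C0 z ^ τ.1.1 * ((1 - c τ.2.1) * v * N) = (1 - c τ.2.1) * (C0 z ^ τ.1.1 * v) * N := by ring
      rw [h4]
      apply mul_le_mul_of_nonneg_right _ (Nat.cast_nonneg _)
      apply mul_le_mul_of_nonneg_right _ (by positivity)
      have := hc0 τ.2.1
      linarith
    · have h1 := hN₂ N (by omega) hl hinj
      have h2 : ∑ n ∈ Icc 1 N, (∏ i, rough z (n + τ.1.2 i)) * LL τ.2.2 n / n =
          C0 z ^ τ.1.1 * ∑ n ∈ Icc 1 N, ind V n * LL τ.2.2 n / n := by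
        rw [mul_sum]
        apply sum_congr rfl
        intro n _
        rw [rough_prod]
        ring
      rw [h2, abs_mul, abs_of_pos hC, hsing]
      have h3 : C0 z ^ τ.1.1 * |∑ n ∈ Icc 1 N, ind V n * LL τ.2.2 n / n| ≤
          C0 z ^ τ.1.1 * ((1 - c τ.2.1 / 2) * v * Real.log N) :=
        mul_le_mul_of_nonneg_left h1 hC.le
      refine h3.trans (le_of_eq ?_)
      ring
  choose T hT using hthr
  obtain ⟨g, hg⟩ := exists_surjective_nat ι
  set TT : ℕ → ℕ := fun m => ∑ z ∈ range (m + 1), ∑ j ∈ range (m + 1), T z (g j) with hTT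
  have hTT1 : ∀ m z j, z ≤ m → j ≤ m → T z (g j) ≤ TT m := by
    intro m z j hz hj
    have h1 : T z (g j) ≤ ∑ j ∈ range (m + 1), T z (g j) :=
      single_le_sum (f := fun j => T z (g j)) (fun _ _ => Nat.zero_le _) (mem_range.2 (by omega))
    have h2 : ∑ j ∈ range (m + 1), T z (g j) ≤ TT m :=
      single_le_sum (f := fun z => ∑ j ∈ range (m + 1), T z (g j)) (fun _ _ => Nat.zero_le _) (mem_range.2 (by omega))
    omega
  set Z : ℕ → ℕ := fun N => Nat.findGreatest (fun m => TT m ≤ N) N with hZ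
  have hZ1 : ∀ N m, m ≤ N → TT m ≤ N → m ≤ Z N ∧ TT (Z N) ≤ N := by
    intro N m hm hTm
    exact ⟨Nat.le_findGreatest hm hTm, Nat.findGreatest_spec (P := fun m => TT m ≤ N) hm hTm⟩
  refine ⟨fun l => c l / 2, F, Z, fun l => by have := hc0 l; positivity, hF, ?_, fun k l h h' => ?_⟩
  · rw [tendsto_atTop]
    intro m
    filter_upwards [eventually_ge_atTop (m + TT m)] with N hN
    exact (hZ1 N m (by omega) (by omega)).1
  · obtain ⟨j, hj⟩ := hg (⟨k, h⟩, ⟨l, h'⟩)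
    have key : ∀ N, j + TT j ≤ N → ∀ z, z ≤ Z N → T z (⟨k, h⟩, ⟨l, h'⟩) ≤ N := by
      intro N hN z hz
      obtain ⟨h1, h2⟩ := hZ1 N j (by omega) (by omega)
      have h3 := hTT1 (Z N) z j hz h1
      rw [hj] at h3
      omega
    refine ⟨⟨j + TT j, fun N hN z hz => (hT z _ N (key N hN z hz)).1⟩, fun hl hinj =>
      ⟨⟨j + TT j, fun N hN hNF z hz => ((hT z _ N (key N hN z hz)).2 hl hinj).1 hNF⟩,
        ⟨j + TT j, fun N hN z hz => ((hT z _ N (key N hN z hz)).2 hl hinj).2⟩⟩⟩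

end Pool.Agent.R512.L
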