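import Pool.Agent.Y958.U.Lam

/-!
Library R512.L (helper512): the sieve model of the von Mangoldt function and products of the Liouville
function.
-/

set_option autoImplicit false

namespace Pool.Agent.R512.L

open Finset Filter Topology
open Pool.Agent.Y958.U
open Pool.Agent.Y958.TC (NM ind Av ind_nonneg)
open Pool.Agent.TH823.MRS (ExpoSmall FlipAll lam_bdd lam_flip expo_lam)
open Pool.Agent.H376R2.MR (lam)

/-! ### Densities of periodic sets -/

open Classical in
/-- the number of the elements of `[0, A)` in `V` -/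
noncomputable def cd (V : ℕ → Prop) (A : ℕ) : ℕ := ((range A).filter V).card

lemma crt_card {A B : ℕ} (hA : 0 < A) (hB : 0 < B) (hAB : Nat.Coprime A B) (V W : ℕ → Prop)
    (hV : ∀ n, V (n + A) ↔ V n) (hW : ∀ n, W (n + B) ↔ W n) :
    cd (fun n => V n ∧ W n) (A * B) = cd V A * cd W B := by
  classical
  unfold cd
  have hV' : ∀ n, V n ↔ V (n % A) := fun n => V_congr hV (Nat.mod_modEq n A).symm
  have hW' : ∀ n, W n ↔ W (n % B) := fun n => V_congr hW (Nat.mod_modEq n B).symm
  have e1 : (Finset.filter (fun n => V n ∧ W n) (range (A * B))).card =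
      (((range A).filter V) ×ˢ ((range B).filter W)).card := by
    apply card_bij (fun n _ => (n % A, n % B))
    · intro n hn
      rw [mem_filter, mem_range] at hn
      rw [mem_product, mem_filter, mem_filter, mem_range, mem_range]
      exact ⟨⟨Nat.mod_lt _ hA, (hV' n).1 hn.2.1⟩, ⟨Nat.mod_lt _ hB, (hW' n).1 hn.2.2⟩⟩
    · intro n hn m hm h
      rw [mem_filter, mem_range] at hn hm
      rw [Prod.mk.injEq] at h
      have h1 : n ≡ m [MOD A * B] := (Nat.modEq_and_modEq_iff_modEq_mul hAB).1 ⟨h.1, h.2⟩
      have h2 : n % (A * B) = m % (A * B) := h1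
      rwa [Nat.mod_eq_of_lt hn.1, Nat.mod_eq_of_lt hm.1] at h2
    · rintro ⟨a, b⟩ hab
      rw [mem_product, mem_filter, mem_filter, mem_range, mem_range] at hab
      obtain ⟨⟨ha1, ha2⟩, ⟨hb1, hb2⟩⟩ := hab
      simp only at ha1 ha2 hb1 hb2
      obtain ⟨k, hk1, hk2⟩ := Nat.chineseRemainder hAB a b
      have hk1' : k % A = a := by
        have h3 : k % A = a % A := hk1
        rwa [Nat.mod_eq_of_lt ha1] at h3
      have hk2' : k % B = b := by
        have h3 : k % B = b % B := hk2
        rwa [Nat.mod_eq_of_lt hb1] at h3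
      refine ⟨k % (A * B), ?_, ?_⟩
      · rw [mem_filter, mem_range]
        refine ⟨Nat.mod_lt _ (Nat.mul_pos hA hB), ?_, ?_⟩
        · rw [hV', Nat.mod_mul_right_mod, hk1']
          exact ha2
        · rw [hW', Nat.mod_mul_left_mod, hk2']
          exact hb2
      · simp only [Nat.mod_mul_right_mod, Nat.mod_mul_left_mod, hk1', hk2']
  have e2 := e1.trans (card_product _ _)
  convert e2 using 2
  ext n
  simp only [mem_filter]

/-- the number of the distinct residues modulo `p` among the `h i` -/
def nu {k : ℕ} (h : Fin k → ℕ) (p : ℕ) : ℕ := (univ.image (fun i => h i % p)).card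

/-- none of the `n + h i` is divisible by a prime `p ∈ S` -/
def VS {k : ℕ} (h : Fin k → ℕ) (S : Finset ℕ) (n : ℕ) : Prop := ∀ p ∈ S, ∀ i, ¬ p ∣ n + h i

lemma VS_per {k : ℕ} (h : Fin k → ℕ) (S : Finset ℕ) (n : ℕ) : VS h S (n + ∏ p ∈ S, p) ↔ VS h S n := by
  unfold VS
  apply forall_congr'; intro p
  apply forall_congr'; intro hp
  apply forall_congr'; intro i
  rw [not_iff_not, show n + ∏ p ∈ S, p + h i = (n + h i) + ∏ p ∈ S, p by ring]
  exact (Nat.dvd_add_left (dvd_prod_of_mem (fun p => p) hp))

lemma cd_prime {k : ℕ} (h : Fin k → ℕ) (p : ℕ) (hp : 0 < p) :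
    cd (fun n => ∀ i, ¬ p ∣ n + h i) p = p - nu h p := by
  classical
  unfold cd nu
  -- the complement is the image of the residues under `r ↦ (p - r) % p`
  have h1 : ((range p).filter (fun n => ¬ ∀ i, ¬ p ∣ n + h i)).card = (univ.image (fun i => h i % p)).card := by
    symm
    apply card_bij (fun r _ => (p - r) % p)
    · intro r hr
      rw [mem_image] at hr
      obtain ⟨i, _, rfl⟩ := hr
      rw [mem_filter, mem_range]
      refine ⟨Nat.mod_lt _ hp, ?_⟩
      push Not
      refine ⟨i, ?_⟩
      have h2 : h i % p < p := Nat.mod_lt _ hp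
      rw [Nat.dvd_iff_mod_eq_zero, Nat.add_mod, Nat.mod_mod, ← Nat.add_mod]
      have h3 : (p - h i % p + h i) = p + p * (h i / p) := by
        have := Nat.mod_add_div (h i) p
        omega
      rw [h3, Nat.add_mul_mod_self_left, Nat.mod_self]
    · intro r hr r' hr' heq
      rw [mem_image] at hr hr'
      obtain ⟨i, _, rfl⟩ := hr
      obtain ⟨i', _, rfl⟩ := hr'
      have h2 : h i % p < p := Nat.mod_lt _ hp
      have h3 : h i' % p < p := Nat.mod_lt _ hp
      have key : ∀ r : ℕ, r < p → r ≠ 0 → (p - r) % p = p - r := fun r _ _ => Nat.mod_eq_of_lt (by omega)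
      by_cases ha : h i % p = 0
      · by_cases hb : h i' % p = 0
        · rw [ha, hb]
        · rw [ha, Nat.sub_zero, Nat.mod_self, key _ h3 hb] at heq
          omega
      · by_cases hb : h i' % p = 0
        · rw [hb, Nat.sub_zero, Nat.mod_self, key _ h2 ha] at heq
          omega
        · rw [key _ h2 ha, key _ h3 hb] at heq
          omega
    · intro n hn
      rw [mem_filter, mem_range] at hn
      obtain ⟨hn1, hn2⟩ := hn
      push Not at hn2
      obtain ⟨i, hi⟩ := hn2
      refine ⟨h i % p, mem_image.2 ⟨i, mem_univ _, rfl⟩, ?_⟩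
      have h2 : h i % p < p := Nat.mod_lt _ hp
      have h3 : (n + h i) % p = 0 := Nat.mod_eq_zero_of_dvd hi
      rw [Nat.add_mod, Nat.mod_eq_of_lt hn1] at h3
      have h4 : p ∣ n + h i % p := Nat.dvd_of_mod_eq_zero h3
      by_cases ha : h i % p = 0
      · rw [ha, add_zero] at h4
        rw [ha, Nat.sub_zero, Nat.mod_self]
        by_contra hne
        have := Nat.le_of_dvd (by omega) h4
        omega
      · obtain ⟨c, hc⟩ := h4
        have hc1 : c = 1 := by
          have hc0 : 0 < c := by
            rcases Nat.eq_zero_or_pos c with h0 | h0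
            · rw [h0, mul_zero] at hc; omega
            · exact h0
          have hc2 : c < 2 := by
            by_contra hcon
            have h6 : p * 2 ≤ p * c := Nat.mul_le_mul_left _ (by omega)
            omega
          omega
        rw [hc1, mul_one] at hc
        rw [Nat.mod_eq_of_lt (by omega)]
        omega
  have h2 := Finset.card_filter_add_card_filter_not (s := range p) (fun n => ∀ i, ¬ p ∣ n + h i)
  rw [card_range, h1] at h2
  have h3 : ((range p).filter (fun n => ∀ i, ¬ p ∣ n + h i)).card = p - (univ.image (fun i => h i % p)).card := by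
    omega
  convert h3 using 2
  ext n
  simp only [mem_filter]

lemma nu_le {k : ℕ} (h : Fin k → ℕ) (p : ℕ) (hp : 0 < p) : nu h p ≤ p := by
  classical
  unfold nu
  have h1 : univ.image (fun i => h i % p) ⊆ range p := by
    intro r hr
    rw [mem_image] at hr
    obtain ⟨i, _, rfl⟩ := hr
    exact mem_range.2 (Nat.mod_lt _ hp)
  have := card_le_card h1
  rwa [card_range] at this

/-- the density is a product over the primes -/
lemma cd_VS {k : ℕ} (h : Fin k → ℕ) (S : Finset ℕ) (hS : ∀ p ∈ S, p.Prime) :
    cd (VS h S) (∏ p ∈ S, p) = ∏ p ∈ S, (p - nu h p) := by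
  classical
  induction S using Finset.induction_on with
  | empty =>
    unfold cd VS
    simp
  | insert q S hq ih =>
    have hS' : ∀ p ∈ S, p.Prime := fun p hp => hS p (mem_insert_of_mem hp)
    have hqp := hS q (mem_insert_self q S)
    rw [prod_insert hq, prod_insert hq, ← ih hS', ← cd_prime h q hqp.pos]
    have hcop : Nat.Coprime q (∏ p ∈ S, p) := by
      apply Nat.Coprime.prod_right
      intro p hp
      rw [Nat.coprime_primes hqp (hS' p hp)]
      rintro rfl
      exact hq hp
    rw [← crt_card hqp.pos (prod_pos fun p hp => (hS' p hp).pos) hcop _ _ (by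
      intro n
      apply forall_congr'; intro i
      rw [not_iff_not, show n + q + h i = (n + h i) + q by ring]
      exact Nat.dvd_add_left (dvd_refl q)) (VS_per h S)]
    have key : VS h (insert q S) = fun n => (∀ i, ¬ q ∣ n + h i) ∧ VS h S n := by
      funext n
      apply propext
      unfold VS
      constructor
      · intro hn
        exact ⟨hn q (mem_insert_self q S), fun p hp => hn p (mem_insert_of_mem hp)⟩
      · rintro ⟨h1, h2⟩ p hp
        rw [mem_insert] at hp
        rcases hp with rfl | hp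
        · exact h1
        · exact h2 p hp
    rw [key]

/-! ### Sums over long intervals -/

lemma sum_per {g : ℕ → ℝ} {A : ℕ} (hg : ∀ n, g (n + A) = g n) (q : ℕ) :
    ∑ n ∈ range (A * q), g n = q * ∑ n ∈ range A, g n := by
  induction q with
  | zero => simp
  | succ q ih =>
    rw [mul_add, mul_one, sum_range_add, ih]
    have h1 : ∀ k n, g (A * k + n) = g n := by
      intro k n
      induction k with
      | zero => simp
      | succ k ih2 =>
        rw [show A * (k + 1) + n = (A * k + n) + A by ring, hg, ih2]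
    rw [sum_congr rfl fun n _ => h1 q n]
    push_cast
    ring

/-- the number of the elements of a periodic set up to `N` -/
lemma ind_sum {V : ℕ → Prop} {A : ℕ} (hA : 1 ≤ A) (hV : ∀ n, V (n + A) ↔ V n) (N : ℕ) :
    |∑ n ∈ Icc 1 N, ind V n - dv V A * N| ≤ 2 * A := by
  classical
  have hA0 : (0 : ℝ) < A := by exact_mod_cast hA
  have hg : ∀ n, ind V (n + A) = ind V n := by
    intro n
    unfold Pool.Agent.Y958.TC.ind
    by_cases h : V n
    · rw [if_pos h, if_pos ((hV n).2 h)]
    · rw [if_neg h, if_neg (fun hh => h ((hV n).1 hh))]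
  have h01 : ∀ n, 0 ≤ ind V n ∧ ind V n ≤ 1 := by
    intro n
    unfold Pool.Agent.Y958.TC.ind
    split_ifs <;> norm_num
  have hdv : ∑ n ∈ range A, ind V n = A * dv V A := by
    unfold dv Pool.Agent.Y958.TC.ind
    rw [sum_boole]
    field_simp
  set q := (N + 1) / A with hq
  have h1 : A * q ≤ N + 1 := Nat.mul_div_le _ _
  have h2 : N + 1 < A * q + A := by
    have := Nat.lt_mul_div_succ (N + 1) (by omega : 0 < A)
    rw [mul_add, mul_one] at this
    exact this
  have h3 : ∑ n ∈ Icc 1 N, ind V n = ∑ n ∈ range (N + 1), ind V n - ind V 0 := by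
    rw [sum_range_succ', add_sub_cancel_right, sum_range_Icc]
  have h4 : ∑ n ∈ range (N + 1), ind V n = ∑ n ∈ range (A * q), ind V n + ∑ n ∈ Ico (A * q) (N + 1), ind V n := by
    rw [sum_range_add_sum_Ico _ h1]
  have h5 : 0 ≤ ∑ n ∈ Ico (A * q) (N + 1), ind V n := sum_nonneg fun n _ => (h01 n).1
  have h6 : ∑ n ∈ Ico (A * q) (N + 1), ind V n ≤ (N + 1 : ℕ) - (A * q : ℕ) := by
    refine (sum_le_sum fun n _ => (h01 n).2).trans ?_
    rw [sum_const, Nat.card_Ico, nsmul_eq_mul, mul_one, Nat.cast_sub h1]
  have hdv0 : 0 ≤ dv V A := by unfold dv; positivity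
  have hdv1 : dv V A ≤ 1 := by
    unfold dv
    rw [div_le_one hA0]
    exact_mod_cast (card_filter_le _ _).trans (by rw [card_range])
  rw [h3, h4, sum_per hg q, hdv]
  have h7 : ((A * q : ℕ) : ℝ) ≤ N + 1 := by exact_mod_cast h1
  have h8 : (N : ℝ) + 1 ≤ (A * q : ℕ) + A := by exact_mod_cast h2.le
  push_cast at h6 h7 h8
  have h9 := h01 0
  have hA1 : (1 : ℝ) ≤ A := by exact_mod_cast hA
  rw [abs_le]
  constructor
  · nlinarith
  · nlinarith

end Pool.Agent.R512.L
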